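import Pool.Agent.Helper92.RK.Defs

/-!
# KIL: killing a bounded number of terms by single literals
-/

set_option autoImplicit false

namespace Pool.Agent.Helper72.RK.KIL

open Finset Pool.Agent.Helper92.RK

variable {n : ℕ}

lemma pr_mono {E E' : (Fin n → Bool) → Prop} (h : ∀ x, E x → E' x) : pr E ≤ pr E' := by
  classical
  unfold pr
  have h1 : (univ.filter E).card ≤ (univ.filter E').card := by
    apply card_le_card
    intro x hx
    simp only [mem_filter, mem_univ, true_and] at hx ⊢
    exact h x hx
  have h2 : ((univ.filter E).card : ℝ) ≤ ((univ.filter E').card : ℝ) := by exact_mod_cast h1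
  have h3 : (0 : ℝ) < 2 ^ n := by positivity
  convert div_le_div_of_nonneg_right h2 h3.le using 3

lemma pr_or (E E' : (Fin n → Bool) → Prop) : pr (fun x => E x ∨ E' x) ≤ pr E + pr E' := by
  classical
  unfold pr
  rw [← add_div]
  have h3 : (0 : ℝ) < 2 ^ n := by positivity
  refine div_le_div_of_nonneg_right ?_ h3.le
  refine le_trans (b := ((univ.filter E ∪ univ.filter E').card : ℝ)) ?_ ?_
  · have h1 := card_le_card (s := univ.filter fun x => E x ∨ E' x)
      (t := univ.filter E ∪ univ.filter E') (by
        intro x hx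
        simp only [mem_filter, mem_univ, true_and, mem_union] at hx ⊢
        exact hx)
    refine le_trans (le_of_eq ?_) (Nat.cast_le (α := ℝ).2 h1)
    congr
  · exact_mod_cast card_union_le _ _

lemma pr_false {E : (Fin n → Bool) → Prop} (h : ∀ x, ¬ E x) : pr E = 0 := by
  classical
  unfold pr
  rw [filter_eq_empty_iff.2 (fun x _ => h x)]
  simp

lemma pr_ex {α : Type} (R : Finset α) (E : α → (Fin n → Bool) → Prop) :
    pr (fun x => ∃ u ∈ R, E u x) ≤ ∑ u ∈ R, pr (E u) := by
  classical
  induction R using Finset.induction_on with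
  | empty =>
    rw [pr_false (fun x h => by simp at h)]
    simp
  | insert a s ha ih =>
    rw [sum_insert ha]
    refine le_trans (pr_mono (E' := fun x => E a x ∨ ∃ u ∈ s, E u x) ?_) (le_trans (pr_or _ _) ?_)
    · rintro x ⟨u, hu, hx⟩
      rcases mem_insert.1 hu with rfl | hu
      · exact Or.inl hx
      · exact Or.inr ⟨u, hu, hx⟩
    · linarith

lemma con_mono {T T' : Tm n} (h : T ⊆ T') (hc : Con T') : Con T :=
  fun l hl l' hl' e => hc l (h hl) l' (h hl') e

theorem main (hS : S_SAT) : S_KIL := by
  classical
  intro m c hc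
  -- the choice of `h`
  have hlim := tendsto_pow_const_mul_const_pow_of_abs_lt_one m (r := (1 / 2 : ℝ))
    (by rw [abs_of_pos] <;> norm_num)
  have hev : ∀ᶠ h : ℕ in Filter.atTop, (h : ℝ) ^ m * (1 / 2 : ℝ) ^ h < c / 2 :=
    hlim.eventually (gt_mem_nhds (by positivity))
  obtain ⟨h, hh, hh1⟩ := (hev.and (Filter.eventually_ge_atTop 1)).exists
  have hpos : (0 : ℝ) < h := by exact_mod_cast hh1
  have hone : (1 : ℝ) ≤ h := by exact_mod_cast hh1
  set c' : ℝ := c / (h : ℝ) ^ m with hc'
  have hc'pos : 0 < c' := by positivity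
  have hsmall : (1 / 2 : ℝ) ^ h ≤ c' / 2 := by
    rw [hc', div_div, le_div_iff₀ (by positivity)]
    nlinarith [hh]
  refine ⟨h, c', hc'pos, ?_⟩
  intro n Z ρ K hρ hK hpr
  -- the induction
  have ind : ∀ (b : ℕ) (σ : Tm n), Con σ →
      (K.filter fun T => Con (T ∪ σ) ∧ h ≤ (T \ σ).card).card ≤ b →
      c' * (h : ℝ) ^ b * (1 / 2 : ℝ) ^ σ.card ≤ pr (fun x => Z x ∧ Sat σ x) →
      ∃ σ' : Tm n, σ ⊆ σ' ∧ Con σ' ∧ σ'.card ≤ σ.card + b ∧
        (∀ i ∈ vr σ', i ∈ vr σ ∨ ∃ T ∈ K, i ∈ vr T) ∧
        (∀ T ∈ K, ¬ Con (T ∪ σ') ∨ (T \ σ').card < h) ∧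
        c' * (1 / 2 : ℝ) ^ σ'.card ≤ pr (fun x => Z x ∧ Sat σ' x) := by
    intro b
    induction b with
    | zero =>
      intro σ hσ hb hp
      refine ⟨σ, Subset.rfl, hσ, by omega, fun i hi => Or.inl hi, ?_, by simpa using hp⟩
      intro T hT
      by_contra hcon
      push Not at hcon
      have : T ∈ (K.filter fun T => Con (T ∪ σ) ∧ h ≤ (T \ σ).card) :=
        mem_filter.2 ⟨hT, hcon.1, hcon.2⟩
      have := card_pos.2 ⟨T, this⟩
      omega
    | succ b ih =>
      intro σ hσ hb hp
      rcases (K.filter fun T => Con (T ∪ σ) ∧ h ≤ (T \ σ).card).eq_empty_or_nonempty with he | hne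
      · refine ⟨σ, Subset.rfl, hσ, by omega, fun i hi => Or.inl hi, ?_, ?_⟩
        · intro T hT
          by_contra hcon
          push Not at hcon
          have : T ∈ (K.filter fun T => Con (T ∪ σ) ∧ h ≤ (T \ σ).card) :=
            mem_filter.2 ⟨hT, hcon.1, hcon.2⟩
          rw [he] at this
          simp at this
        · refine le_trans ?_ hp
          have h1 : (1 : ℝ) ≤ (h : ℝ) ^ (b + 1) := one_le_pow₀ hone
          have h2 : (0 : ℝ) ≤ (1 / 2 : ℝ) ^ σ.card := by positivity
          nlinarith [mul_nonneg hc'pos.le h2]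
      · obtain ⟨T, hT⟩ := hne
        have hT0 := hT
        rw [mem_filter] at hT
        obtain ⟨hTK, hTc, hTh⟩ := hT
        obtain ⟨R, hR, hRc⟩ := exists_subset_card_eq hTh
        have hRT : ∀ u ∈ R, u ∈ T ∧ u ∉ σ := fun u hu => mem_sdiff.1 (hR hu)
        have hnv : ∀ u ∈ R, ∀ l ∈ σ, l.1 ≠ u.1 := by
          intro u hu l hl e
          have := hTc l (mem_union_right _ hl) u (mem_union_left _ (hRT u hu).1) e
          rw [this] at hl
          exact (hRT u hu).2 hl
        have hcon1 : Con (σ ∪ R) := by
          refine con_mono ?_ hTc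
          intro l hl
          rcases mem_union.1 hl with hl | hl
          · exact mem_union_right _ hl
          · exact mem_union_left _ (hRT l hl).1
        have hcard1 : (σ ∪ R).card = σ.card + h := by
          rw [card_union_of_disjoint, hRc]
          rw [disjoint_left]
          intro l hl hl'
          exact (hRT l hl').2 hl
        have hbound : pr (fun x => Z x ∧ Sat σ x) ≤ pr (Sat (σ ∪ R)) +
            ∑ u ∈ R, pr (fun x => Z x ∧ Sat (insert (u.1, !u.2) σ) x) := by
          refine le_trans (pr_mono (E' := fun x => Sat (σ ∪ R) x ∨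
            ∃ u ∈ R, Z x ∧ Sat (insert (u.1, !u.2) σ) x) ?_) (le_trans (pr_or _ _) ?_)
          · rintro x ⟨hz, hs⟩
            by_cases hx : ∀ u ∈ R, x u.1 = u.2
            · left
              intro l hl
              rcases mem_union.1 hl with hl | hl
              · exact hs l hl
              · exact hx l hl
            · right
              push Not at hx
              obtain ⟨u, hu, hux⟩ := hx
              refine ⟨u, hu, hz, ?_⟩
              intro l hl
              rcases mem_insert.1 hl with rfl | hl
              · simp only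
                cases hh1 : x u.1 <;> cases hh2 : u.2 <;> simp_all
              · exact hs l hl
          · have := pr_ex R (fun u x => Z x ∧ Sat (insert (u.1, !u.2) σ) x)
            linarith
        rw [hS n _ hcon1, hcard1] at hbound
        -- a good literal
        have hex : ∃ u ∈ R, c' * (h : ℝ) ^ b * (1 / 2 : ℝ) ^ (σ.card + 1) ≤
            pr (fun x => Z x ∧ Sat (insert (u.1, !u.2) σ) x) := by
          by_contra hcon
          push Not at hcon
          have hRne : R.Nonempty := by
            rw [← card_pos, hRc]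
            omega
          have h1 : ∑ u ∈ R, pr (fun x => Z x ∧ Sat (insert (u.1, !u.2) σ) x) <
              ∑ _u ∈ R, c' * (h : ℝ) ^ b * (1 / 2 : ℝ) ^ (σ.card + 1) :=
            sum_lt_sum_of_nonempty hRne hcon
          rw [sum_const, hRc, nsmul_eq_mul] at h1
          have h2 : (1 / 2 : ℝ) ^ (σ.card + h) ≤
              c' * (h : ℝ) ^ (b + 1) / 2 * (1 / 2 : ℝ) ^ σ.card := by
            rw [pow_add, mul_comm]
            refine mul_le_mul_of_nonneg_right ?_ (by positivity)
            refine le_trans hsmall ?_
            have h3 : (1 : ℝ) ≤ (h : ℝ) ^ (b + 1) := one_le_pow₀ hone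
            nlinarith
          have h4 : (h : ℝ) * (c' * (h : ℝ) ^ b * (1 / 2 : ℝ) ^ (σ.card + 1)) =
              c' * (h : ℝ) ^ (b + 1) / 2 * (1 / 2 : ℝ) ^ σ.card := by
            rw [pow_succ, pow_succ]
            ring
          rw [h4] at h1
          have h5 : c' * (h : ℝ) ^ (b + 1) * (1 / 2 : ℝ) ^ σ.card =
              c' * (h : ℝ) ^ (b + 1) / 2 * (1 / 2 : ℝ) ^ σ.card +
              c' * (h : ℝ) ^ (b + 1) / 2 * (1 / 2 : ℝ) ^ σ.card := by ring
          linarith
        obtain ⟨u, hu, hup⟩ := hex
        have hnot : (u.1, !u.2) ∉ σ := fun hmem => hnv u hu _ hmem rfl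
        have hcon2 : Con (insert (u.1, !u.2) σ) := by
          intro l hl l' hl' e
          rcases mem_insert.1 hl with rfl | hl <;> rcases mem_insert.1 hl' with rfl | hl'
          · rfl
          · exact absurd e.symm (hnv u hu l' hl')
          · exact absurd e (hnv u hu l hl)
          · exact hσ l hl l' hl' e
        have hcard2 : (insert (u.1, !u.2) σ).card = σ.card + 1 := card_insert_of_notMem hnot
        have hsub2 : σ ⊆ insert (u.1, !u.2) σ := subset_insert _ _
        have hb2 : (K.filter fun T => Con (T ∪ insert (u.1, !u.2) σ) ∧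
            h ≤ (T \ insert (u.1, !u.2) σ).card).card ≤ b := by
          have h1 : (K.filter fun T => Con (T ∪ insert (u.1, !u.2) σ) ∧
              h ≤ (T \ insert (u.1, !u.2) σ).card) ⊆
              (K.filter fun T => Con (T ∪ σ) ∧ h ≤ (T \ σ).card).erase T := by
            intro T' hT'
            rw [mem_filter] at hT'
            rw [mem_erase, mem_filter]
            refine ⟨?_, hT'.1, con_mono (union_subset_union Subset.rfl hsub2) hT'.2.1,
              le_trans hT'.2.2 (card_le_card (sdiff_subset_sdiff Subset.rfl hsub2))⟩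
            rintro rfl
            have := hT'.2.1 u (mem_union_left _ (hRT u hu).1) (u.1, !u.2)
              (mem_union_right _ (mem_insert_self _ _)) rfl
            have h2 := congrArg Prod.snd this
            simp at h2
          have h2 := card_le_card h1
          rw [card_erase_of_mem hT0] at h2
          omega
        obtain ⟨σ', h1, h2, h3, h4, h5, h6⟩ := ih (insert (u.1, !u.2) σ) hcon2 hb2
          (by rw [hcard2]; exact hup)
        refine ⟨σ', hsub2.trans h1, h2, by rw [hcard2] at h3; omega, ?_, h5, h6⟩
        intro i hi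
        rcases h4 i hi with h7 | h7
        · simp only [vr, image_insert, mem_insert] at h7
          rcases h7 with h7 | h7
          · right
            exact ⟨T, hTK, by rw [h7]; exact mem_image_of_mem _ (hRT u hu).1⟩
          · exact Or.inl h7
        · exact Or.inr h7
  have hinit : c' * (h : ℝ) ^ m = c := by
    rw [hc']
    field_simp
  exact ind m ρ hρ (le_trans (card_filter_le _ _) hK) (by rw [hinit]; exact hpr)

end Pool.Agent.Helper72.RK.KIL
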